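import Mathlib

/-! # BW: estimates for the critical degree -/

set_option autoImplicit false

namespace Pool.Agent.H929.BW

open Finset

/-- `m (m + 1) ⋯ (m + n)` -/
noncomputable def PP (n : ℕ) (x : ℝ) : ℝ := ∏ j ∈ range (n + 1), (x + j)

lemma PP_nat (n m : ℕ) :
    (((n + 1).factorial * (n + 1 + m - 1).choose (n + 1) : ℕ) : ℝ) = PP n m := by
  have h := Nat.ascFactorial_eq_factorial_mul_choose' m (n + 1)
  have e : m + (n + 1) - 1 = n + 1 + m - 1 := by omega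
  rw [e] at h
  rw [← h, Nat.ascFactorial_eq_prod_range, PP]
  push_cast
  rfl

lemma PP_nat' (n d : ℕ) :
    (((n + 1).factorial * (n + 1 + d).choose (n + 1) : ℕ) : ℝ) = PP n (d + 1) := by
  have h := PP_nat n (d + 1)
  have e : n + 1 + (d + 1) - 1 = n + 1 + d := by omega
  rw [e] at h
  rw [h]
  push_cast
  rfl

lemma PP_lower (n : ℕ) {x : ℝ} (hx : 0 ≤ x) : x ^ (n + 1) ≤ PP n x := by
  unfold PP
  calc x ^ (n + 1) = ∏ _j ∈ range (n + 1), x := by rw [prod_const, card_range]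
    _ ≤ ∏ j ∈ range (n + 1), (x + j) := by
      refine prod_le_prod (fun _ _ => hx) fun j _ => ?_
      have : (0 : ℝ) ≤ j := Nat.cast_nonneg j
      linarith

lemma PP_upper (n : ℕ) {x : ℝ} (hx : 0 ≤ x) : PP n x ≤ (x + n) ^ (n + 1) := by
  unfold PP
  calc (∏ j ∈ range (n + 1), (x + j)) ≤ ∏ _j ∈ range (n + 1), (x + n) := by
          refine prod_le_prod (fun j _ => by positivity) fun j hj => ?_
          have : (j : ℝ) ≤ n := by exact_mod_cast Nat.lt_succ_iff.1 (mem_range.1 hj)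
          linarith
    _ = _ := by rw [prod_const, card_range]

lemma PP_nonneg (n : ℕ) {x : ℝ} (hx : 0 ≤ x) : 0 ≤ PP n x :=
  prod_nonneg fun j _ => by positivity

lemma PP_sq (n : ℕ) (x : ℝ) : PP n x ^ 2 = ∏ j ∈ range (n + 1), (x * (x + n) + j * (n - j)) := by
  have h : PP n x = ∏ j ∈ range (n + 1), (x + (n - j)) := by
    unfold PP
    rw [← prod_range_reflect]
    refine prod_congr rfl fun j hj => ?_
    have hj' : j ≤ n := Nat.lt_succ_iff.1 (mem_range.1 hj)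
    rw [show n + 1 - 1 - j = n - j by omega, Nat.cast_sub hj']
  rw [sq]
  nth_rw 2 [h]
  unfold PP
  rw [← prod_mul_distrib]
  exact prod_congr rfl fun j _ => by ring

/-- the mean of the factors -/
lemma PP_mid (n : ℕ) {x : ℝ} (hx : 0 ≤ x) : PP n x ≤ (x + n / 2) ^ (n + 1) := by
  have h1 : PP n x ^ 2 ≤ ((x + n / 2) ^ (n + 1)) ^ 2 := by
    rw [PP_sq]
    calc _ ≤ ∏ _j ∈ range (n + 1), (x + n / 2) ^ 2 := by
          refine prod_le_prod (fun j hj => ?_) fun j _ => ?_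
          · have : (j : ℝ) ≤ n := by exact_mod_cast Nat.lt_succ_iff.1 (mem_range.1 hj)
            have : 0 ≤ (n : ℝ) - j := by linarith
            positivity
          · nlinarith [sq_nonneg ((n : ℝ) / 2 - j)]
      _ = _ := by rw [prod_const, card_range, ← pow_mul, ← pow_mul, mul_comm]
  exact le_of_sq_le_sq h1 (by positivity)
where
  le_of_sq_le_sq {a b : ℝ} (h : a ^ 2 ≤ b ^ 2) (hb : 0 ≤ b) : a ≤ b := by
    by_contra hcon
    push Not at hcon
    nlinarith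

lemma PP_low2 (n : ℕ) {x : ℝ} (hx : 0 ≤ x) : (x * (x + n)) ^ (n + 1) ≤ PP n x ^ 2 := by
  rw [PP_sq]
  calc _ = ∏ _j ∈ range (n + 1), x * (x + n) := by rw [prod_const, card_range]
    _ ≤ ∏ j ∈ range (n + 1), (x * (x + n) + j * (n - j)) := by
      refine prod_le_prod (fun _ _ => by positivity) fun j hj => ?_
      have : (j : ℝ) ≤ n := by exact_mod_cast Nat.lt_succ_iff.1 (mem_range.1 hj)
      have : 0 ≤ (j : ℝ) * (n - j) := mul_nonneg (Nat.cast_nonneg j) (by linarith)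
      linarith

/-- the critical degree is at most `ρ (m + n / 2)` -/
lemma crit_le {n : ℕ} {T ρ x r : ℝ} (hρ : 0 < ρ) (hx : 0 ≤ x)
    (hr : ρ ^ (n + 1) = r) (hTn : T ^ (n + 1) = r * PP n x) : T ≤ ρ * (x + n / 2) := by
  by_contra hcon
  push Not at hcon
  have h1 : (ρ * (x + n / 2)) ^ (n + 1) < T ^ (n + 1) :=
    pow_lt_pow_left₀ hcon (by positivity) (by omega)
  rw [hTn, mul_pow, hr] at h1
  have h2 := PP_mid n hx
  have h3 : 0 < r := hr ▸ by positivity
  have h4 := mul_le_mul_of_nonneg_left h2 h3.le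
  linarith

/-- the critical degree is at least `ρ x` -/
lemma le_crit {n : ℕ} {T ρ x r : ℝ} (hT : 0 ≤ T) (hρ : 0 < ρ) (hx : 0 ≤ x)
    (hr : ρ ^ (n + 1) = r) (hTn : T ^ (n + 1) = r * PP n x) : ρ * x ≤ T := by
  by_contra hcon
  push Not at hcon
  have h1 : T ^ (n + 1) < (ρ * x) ^ (n + 1) := pow_lt_pow_left₀ hcon hT (by omega)
  rw [hTn, mul_pow, hr] at h1
  have h2 := PP_lower n hx
  have h3 : 0 < r := hr ▸ by positivity
  have h4 := mul_le_mul_of_nonneg_left h2 h3.le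
  linarith

/-- the critical degree is at least `ρ (m + n / 2) - n ^ 2` if `ρ ≤ m` -/
lemma le_crit2 {n : ℕ} {T ρ x r : ℝ} (hT : 0 ≤ T) (hρ : 0 < ρ) (hx : 0 ≤ x) (hρx : ρ ≤ x)
    (hr : ρ ^ (n + 1) = r) (hTn : T ^ (n + 1) = r * PP n x) :
    ρ * (x + n / 2) - n ^ 2 ≤ T := by
  rcases le_total (ρ * (x + n / 2) - n ^ 2) 0 with h0 | h0
  · linarith
  have h3 : 0 < r := hr ▸ by positivity
  by_contra hcon
  push Not at hcon
  have hn : (0 : ℝ) ≤ n := Nat.cast_nonneg n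
  have h1 : T ^ 2 < ρ ^ 2 * (x * (x + n)) := by
    have h4 : T ^ 2 < (ρ * (x + n / 2) - n ^ 2) ^ 2 := pow_lt_pow_left₀ hcon hT (by omega)
    have h5 : (ρ * (x + n / 2) - (n : ℝ) ^ 2) ^ 2 ≤ ρ ^ 2 * (x * (x + n)) := by
      have e : ρ ^ 2 * (x * (x + n)) = (ρ * (x + n / 2)) ^ 2 - ρ ^ 2 * n ^ 2 / 4 := by ring
      rw [e]
      have h6 : ρ * ρ ≤ ρ * (x + n / 2) := mul_le_mul_of_nonneg_left (by linarith) hρ.le
      have h7 : ρ * ρ / 4 + n ^ 2 ≤ 2 * (ρ * (x + n / 2)) := by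
        have : 0 ≤ ρ * (x + n / 2) := by positivity
        linarith
      nlinarith [mul_le_mul_of_nonneg_right h7 (sq_nonneg (n : ℝ))]
    linarith
  have h8 : (T ^ 2) ^ (n + 1) < (ρ ^ 2 * (x * (x + n))) ^ (n + 1) :=
    pow_lt_pow_left₀ h1 (by positivity) (by omega)
  have e1 : (T ^ 2) ^ (n + 1) = (r * PP n x) ^ 2 := by rw [← hTn]; ring
  have e2 : (ρ ^ 2 * (x * (x + n))) ^ (n + 1) = r ^ 2 * (x * (x + n)) ^ (n + 1) := by
    rw [mul_pow, ← hr]; ring
  rw [e1, e2, mul_pow] at h8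
  have h9 := mul_le_mul_of_nonneg_left (PP_low2 n hx) (sq_nonneg r)
  linarith

lemma pow_sub_ge {n : ℕ} {x y : ℝ} (hy : 0 ≤ y) (hxy : y ≤ x) :
    (x - y) * x ^ n ≤ x ^ (n + 1) - y ^ (n + 1) := by
  have h1 : y ^ n ≤ x ^ n := pow_le_pow_left₀ hy hxy n
  have h2 : y * y ^ n ≤ y * x ^ n := mul_le_mul_of_nonneg_left h1 hy
  rw [pow_succ, pow_succ]
  nlinarith

lemma add_pow_ge {n : ℕ} {x c : ℝ} (hx : 0 ≤ x) (hc : 0 ≤ c) :
    x ^ (n + 1) + c * x ^ n ≤ (x + c) ^ (n + 1) := by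
  have h1 : x ^ n ≤ (x + c) ^ n := pow_le_pow_left₀ hx (by linarith) n
  rw [pow_succ, pow_succ]
  nlinarith [mul_le_mul_of_nonneg_right h1 (show 0 ≤ x + c by linarith)]

/-- few points of large multiplicity, emptiness: numerical condition in the other range -/
lemma numE {n : ℕ} {T ρ x r d C c : ℝ} (hT : 0 ≤ T) (hn : 1 ≤ n) (hρ : 1 ≤ ρ) (hx : 1 ≤ x)
    (hρx : x ≤ ρ) (hr : ρ ^ (n + 1) = r) (hTn : T ^ (n + 1) = r * PP n x) (hd : 0 ≤ d)
    (hc : 0 ≤ c) (hC : (n + 1) + c * (1 + n) ^ (n + 1) ≤ C) (hdT : d ≤ T - C) :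
    c * PP n x ≤ r * PP n x - PP n (d + 1) := by
  have hn0 : (0 : ℝ) ≤ n := Nat.cast_nonneg n
  have h1 : PP n (d + 1) ≤ (T - c * (1 + n) ^ (n + 1)) ^ (n + 1) :=
    (PP_upper n (by linarith)).trans (pow_le_pow_left₀ (by linarith) (by linarith) _)
  have h2 := pow_sub_ge (n := n) (x := T) (y := T - c * (1 + n) ^ (n + 1)) (by linarith)
    (by have : 0 ≤ c * (1 + (n : ℝ)) ^ (n + 1) := by positivity
        linarith)
  rw [hTn] at h2
  have h3 : c * PP n x ≤ (T - (T - c * (1 + n) ^ (n + 1))) * T ^ n := by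
    have h4 : ρ * x ≤ T := le_crit hT (by linarith) (by linarith) hr hTn
    have h5 : x ^ (n + 1) ≤ T ^ n := by
      calc x ^ (n + 1) = x * x ^ n := by ring
        _ ≤ ρ ^ n * x ^ n := by
            refine mul_le_mul_of_nonneg_right ?_ (by positivity)
            calc x ≤ ρ := hρx
              _ = ρ ^ 1 := (pow_one _).symm
              _ ≤ ρ ^ n := pow_le_pow_right₀ hρ hn
        _ = (ρ * x) ^ n := by rw [mul_pow]
        _ ≤ T ^ n := pow_le_pow_left₀ (by positivity) h4 n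
    have h6 : PP n x ≤ (1 + n) ^ (n + 1) * x ^ (n + 1) := by
      refine (PP_upper n (by linarith)).trans ?_
      rw [← mul_pow]
      refine pow_le_pow_left₀ (by positivity) ?_ _
      nlinarith
    calc c * PP n x ≤ c * ((1 + n) ^ (n + 1) * x ^ (n + 1)) := mul_le_mul_of_nonneg_left h6 hc
      _ ≤ c * ((1 + n) ^ (n + 1) * T ^ n) := by
          refine mul_le_mul_of_nonneg_left (mul_le_mul_of_nonneg_left h5 (by positivity)) hc
      _ = _ := by ring
  linarith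

/-- few points of large multiplicity, independence: numerical condition in the other range -/
lemma numS {n : ℕ} {T ρ x r d C c c' : ℝ} (hT : 0 ≤ T) (hn : 1 ≤ n) (hρ : 1 ≤ ρ) (hx : 1 ≤ x)
    (hρx : x ≤ ρ) (hr : ρ ^ (n + 1) = r) (hTn : T ^ (n + 1) = r * PP n x)
    (hc : 0 ≤ c) (hc' : 0 ≤ c') (hC : c' + c * (1 + n) ^ (n + 1) < C) (hdT : T + C ≤ d) :
    c' * x ^ (n + 1) + c * PP n x < PP n (d + 1) - r * PP n x := by
  have hn0 : (0 : ℝ) ≤ n := Nat.cast_nonneg n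
  have hC0 : 0 < C := lt_of_le_of_lt (by positivity) hC
  have h1 : (T + C) ^ (n + 1) ≤ PP n (d + 1) :=
    (pow_le_pow_left₀ (by positivity) (by linarith) _).trans (PP_lower n (by linarith))
  have h2 := add_pow_ge (n := n) hT hC0.le
  rw [hTn] at h2
  have h4 : ρ * x ≤ T := le_crit hT (by linarith) (by linarith) hr hTn
  have h5 : x ^ (n + 1) ≤ T ^ n := by
    calc x ^ (n + 1) = x * x ^ n := by ring
      _ ≤ ρ ^ n * x ^ n := by
          refine mul_le_mul_of_nonneg_right ?_ (by positivity)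
          calc x ≤ ρ := hρx
            _ = ρ ^ 1 := (pow_one _).symm
            _ ≤ ρ ^ n := pow_le_pow_right₀ hρ hn
      _ = (ρ * x) ^ n := by rw [mul_pow]
      _ ≤ T ^ n := pow_le_pow_left₀ (by positivity) h4 n
  have h6 : PP n x ≤ (1 + n) ^ (n + 1) * x ^ (n + 1) := by
    refine (PP_upper n (by linarith)).trans ?_
    rw [← mul_pow]
    refine pow_le_pow_left₀ (by positivity) ?_ _
    nlinarith
  have h7 : 0 < x ^ (n + 1) := by positivity
  calc c' * x ^ (n + 1) + c * PP n x ≤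
        c' * x ^ (n + 1) + c * ((1 + n) ^ (n + 1) * x ^ (n + 1)) :=
          add_le_add le_rfl (mul_le_mul_of_nonneg_left h6 hc)
    _ = (c' + c * (1 + n) ^ (n + 1)) * x ^ (n + 1) := by ring
    _ < C * x ^ (n + 1) := mul_lt_mul_of_pos_right hC h7
    _ ≤ C * T ^ n := mul_le_mul_of_nonneg_left h5 hC0.le
    _ ≤ _ := by linarith

end Pool.Agent.H929.BW
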