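import Pool.Agent.H929.BW.Main
import Pool.Agent.H349.BW.Cut
import Pool.Agent.H94.BW.NodeE
import Pool.Agent.H980.BW.PIECEE
import Pool.Agent.H571.BW.NodS
import Pool.Agent.H177.BW.Pieces
import Pool.Agent.H738.BW.Conv
import Pool.Agent.H643.BW.Coll
import Pool.Agent.H729.BW.CLE
import Pool.Agent.H726.BW.CLS
import Pool.Agent.H980.BW.RECE
import Pool.Agent.H872.BW.RECS
import Pool.Agent.H650.BW.Num

/-! # BW: all the parts together -/

set_option autoImplicit false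

namespace Pool.Agent.H929.BW

theorem main (n : ℕ) (hn : 1 ≤ n) :
    ∃ C : ℝ, 0 < C ∧ ∀ r m d : ℕ, 3 ^ (n + 1) ≤ r → 1 ≤ m →
      ((d : ℝ) ≤ crit (n + 1) r m - C → GV (n + 1) r m d ((n + 1 + d).choose (n + 1))) ∧
      (crit (n + 1) r m + C ≤ d →
        GV (n + 1) r m d (r * (n + 1 + m - 1).choose (n + 1))) :=
  mainAll t_STARTE Pool.Agent.H738.BW.t_CONVE Pool.Agent.H643.BW.t_COLLE
    (Pool.Agent.H980.BW.t_RECE t_NODE (Pool.Agent.H980.BW.t_PIECEE Pool.Agent.H349.BW.t_CUTE))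
    t_NUME Pool.Agent.H729.BW.t_CLE Pool.Agent.H571.BW.t_STARTS Pool.Agent.H738.BW.t_CONVS
    Pool.Agent.H643.BW.t_COLLS
    (Pool.Agent.H872.BW.t_RECS Pool.Agent.H571.BW.t_NODS (t_PIECES Pool.Agent.H349.BW.t_CUTS)
      Pool.Agent.H571.BW.t_MONOS) t_NUMS t_CLS n hn

end Pool.Agent.H929.BW
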