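import Pool.Agent.H929.BW.Stm

/-! # BW: assembly -/

set_option autoImplicit false

namespace Pool.Agent.H929.BW

open Finset Pool.Agent.TH3.IR Pool.Agent.Y55.Col

/-- the engine for emptiness -/
theorem engE (hstart : S_STARTE) (hconv : S_CONVE) (hcoll : S_COLLE) (hrec : S_RECE)
    {n m r d : ℕ} {g Λ T : ℝ} (hn : 1 ≤ n) (hm : 1 ≤ m) (hg : (m : ℝ) ≤ g) (hΛ : 1 ≤ Λ)
    (hcl : ClE n m g Λ T) (h6 : 6 * g ≤ d) (hT : (d : ℝ) ≤ 6 * g * T)
    (h : (d : ℝ) ^ (n + 1) + AE n * Λ * ((d : ℝ) / 3) ^ n + FE n m g Λ ≤ r * g ^ (n + 1)) :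
    Emp (n + 1) (d + 1) (Multiset.replicate r m) := by
  have h3 : (21 / 4 : ℝ) ≤ 3 ^ (n + 1) := by
    calc (21 / 4 : ℝ) ≤ 3 ^ 2 := by norm_num
      _ ≤ 3 ^ (n + 1) := pow_le_pow_right₀ (by norm_num) (by omega)
  have h4 : (3 : ℝ) ^ (n + 1) ≤ 3 ^ (n + 2) := pow_le_pow_right₀ (by norm_num) (by omega)
  obtain ⟨ι, hι, w, s, h1, h2, hs⟩ := hrec n m g Λ T hn hm hg hΛ hcl (3 ^ (n + 1)) ((d : ℝ) / 3) r
    h3 h4 (by linarith) (by linarith) (by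
      have e : (3 : ℝ) ^ (n + 1) * ((d : ℝ) / 3) ^ (n + 1) = (d : ℝ) ^ (n + 1) := by
        rw [← mul_pow]
        congr 1
        ring
      rw [e]
      exact h)
  have h5 := hconv ι n d w (hstart ι n w d hn h1)
  have h6 := hcoll ι (n + 1) (d + 1) m w s h5 h2
  rwa [hs] at h6

/-- the engine for independence -/
theorem engS (hstart : S_STARTS) (hconv : S_CONVS) (hcoll : S_COLLS) (hrec : S_RECS)
    {n m r d : ℕ} {g Λ T : ℝ} (hn : 1 ≤ n) (hm : 1 ≤ m) (hg : (m : ℝ) ≤ g)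
    (hg' : g ≤ m + 2 * (n + 1)) (hΛ : 1 ≤ Λ)
    (hcl : ClS n m g Λ T) (h6 : 2 * ((m : ℝ) + 2 * (n + 1)) ≤ (d : ℝ) / 3 - 2 * (n + 1))
    (hT : (d : ℝ) ≤ 9 * g * T)
    (h : r * g ^ (n + 1) + AS n Λ * ((d : ℝ) / 3 - 2 * (n + 1)) ^ n + FS n m g Λ ≤
      3 ^ (n + 1) * ((d : ℝ) / 3 - 2 * (n + 1)) ^ (n + 1)) :
    Ind n (d + 1) (Multiset.replicate r m) := by
  have h3 : (21 / 4 : ℝ) ≤ 3 ^ (n + 1) := by
    calc (21 / 4 : ℝ) ≤ 3 ^ 2 := by norm_num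
      _ ≤ 3 ^ (n + 1) := pow_le_pow_right₀ (by norm_num) (by omega)
  have h4 : (3 : ℝ) ^ (n + 1) ≤ 3 ^ (n + 2) := pow_le_pow_right₀ (by norm_num) (by omega)
  have hn0 : (0 : ℝ) ≤ n := Nat.cast_nonneg n
  obtain ⟨ι, hι, w, s, h1, h2, hs⟩ := hrec n m g Λ T hn hm hg hg' hΛ hcl (3 ^ (n + 1))
    ((d : ℝ) / 3 - 2 * (n + 1)) r h3 h4 h6 (by linarith) h
  have h5 := hconv ι n d w (hstart ι n w d hn h1)
  have h6 := hcoll ι n (d + 1) m w s h5 h2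
  obtain ⟨k, hk⟩ := Nat.exists_eq_add_of_le hs
  rw [hk] at h6
  clear hk h5
  induction k with
  | zero => exact h6
  | succ k ih =>
    apply ih
    rw [← add_assoc, Multiset.replicate_succ] at h6
    exact h6.remove

/-- emptiness outside of the window -/
theorem finE (hstart : S_STARTE) (hconv : S_CONVE) (hcoll : S_COLLE) (hrec : S_RECE)
    (hnum : S_NUME) (n : ℕ) (hn : 1 ≤ n) (K : ℝ) (hK : 1 ≤ K) :
    ∃ C : ℝ, 0 < C ∧ ∀ (r m d : ℕ) (ρ g Λ : ℝ), 3 ^ (n + 1) ≤ r → 0 < ρ → ρ ^ (n + 1) = r →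
      1 ≤ m → (m : ℝ) ≤ g → g ≤ m + n → 1 ≤ Λ → Λ ≤ K * (1 + ρ / m) → ClE n m g Λ ρ →
      (d : ℝ) ≤ ρ * g - C * Λ → Emp (n + 1) (d + 1) (Multiset.replicate r m) := by
  obtain ⟨C, hC, hnum⟩ := hnum n hn K hK
  refine ⟨C + 6 * (1 + n) * n + 1, by positivity, fun r m d ρ g Λ hr hρ hρN hm hg hg' hΛ hΛK hcl hd => ?_⟩
  have hρ3 : 3 ≤ ρ := by
    by_contra hcon
    push Not at hcon
    have h1 : ρ ^ (n + 1) < 3 ^ (n + 1) := pow_lt_pow_left₀ hcon hρ.le (by omega)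
    rw [hρN] at h1
    have h2 : ((3 ^ (n + 1) : ℕ) : ℝ) ≤ r := by exact_mod_cast hr
    push_cast at h2
    linarith
  have hn1 : (1 : ℝ) ≤ n := by exact_mod_cast hn
  have hm1 : (1 : ℝ) ≤ m := by exact_mod_cast hm
  have hd' : (d : ℝ) ≤ ρ * g - C * Λ := by
    have : 0 ≤ (6 * (1 + (n : ℝ)) * n + 1) * Λ := by positivity
    linarith
  by_cases h6 : 6 * g ≤ d
  · refine engE hstart hconv hcoll hrec hn hm hg hΛ hcl h6 ?_ ?_
    · have : 0 ≤ C * Λ := by positivity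
      nlinarith
    · have := hnum m ρ g Λ d hm hρ3 hg hg' hΛ hΛK h6 hd'
      rwa [mul_pow, hρN] at this
  · push Not at h6
    have hdm : (d : ℝ) < ρ * m := by
      by_cases hρ2 : 6 * (1 + n) ≤ ρ
      · have h1 : 6 * g ≤ ρ * m := by
          have h2 : 6 * (1 + (n : ℝ)) * m ≤ ρ * m := mul_le_mul_of_nonneg_right hρ2 (by linarith)
          nlinarith
        linarith
      · push Not at hρ2
        have h1 : ρ * g ≤ ρ * (m + n) := mul_le_mul_of_nonneg_left hg' hρ.le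
        have h2 : ρ * n ≤ 6 * (1 + n) * n := mul_le_mul_of_nonneg_right hρ2.le (by linarith)
        have h3 : (6 * (1 + (n : ℝ)) * n + 1) ≤ (C + 6 * (1 + n) * n + 1) * Λ := by
          have h4 : (6 * (1 + (n : ℝ)) * n + 1) * 1 ≤ (C + 6 * (1 + n) * n + 1) * Λ :=
            mul_le_mul (by linarith) hΛ (by norm_num) (by positivity)
          linarith
        nlinarith
    have : Nonempty (Fin n) := ⟨⟨0, hn⟩⟩
    have h1 : EmpS (fun _ : Fin r => m) (RegS (0 : ℝ) d (fun _ : Fin n => 0) (fun _ => 1)) := by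
      refine EmpS_simplex (ρ := ρ) (by simpa using hr) d _ hρ (by simpa using hρN) ?_
      rw [Fintype.card_fin, Finset.sum_const, Finset.card_univ, Fintype.card_fin, nsmul_eq_mul,
        ← hρN]
      have h2 : 0 < ρ ^ n := by positivity
      calc ρ ^ n * (d : ℝ) < ρ ^ n * (ρ * m) := mul_lt_mul_of_pos_left hdm h2
        _ = ρ ^ (n + 1) * m := by ring
    have h2 := hconv (Fin r) n d _ h1
    rwa [Multiset.map_const', Finset.card_val, Finset.card_univ, Fintype.card_fin] at h2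

/-- independence outside of the window -/
theorem finS (hstart : S_STARTS) (hconv : S_CONVS) (hcoll : S_COLLS) (hrec : S_RECS)
    (hnum : S_NUMS) (n : ℕ) (hn : 1 ≤ n) (K : ℝ) (hK : 1 ≤ K) :
    ∃ C : ℝ, 0 < C ∧ ∀ (r m d : ℕ) (ρ g Λ : ℝ), 3 ^ (n + 1) ≤ r → 0 < ρ → ρ ^ (n + 1) = r →
      1 ≤ m → (m : ℝ) ≤ g → g ≤ m + n → 1 ≤ Λ → Λ ≤ K * (1 + ρ / m) → (∀ T, ClS n m g Λ T) →
      ρ * g + C * Λ ≤ d → Ind n (d + 1) (Multiset.replicate r m) := by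
  obtain ⟨C, hC, hnum⟩ := hnum n hn K hK
  refine ⟨C + 8 * n, by positivity, fun r m d ρ g Λ hr hρ hρN hm hg hg' hΛ hΛK hcl hd => ?_⟩
  have hn1 : (1 : ℝ) ≤ n := by exact_mod_cast hn
  have hm1 : (1 : ℝ) ≤ m := by exact_mod_cast hm
  have h8 : 0 ≤ 8 * (n : ℝ) * Λ := by positivity
  have hCΛ : 0 ≤ C * Λ := by positivity
  by_cases hρ7 : 7 ≤ ρ
  · obtain ⟨h1, h2⟩ := hnum m ρ g Λ d hm hρ7 hg hg' hΛ hΛK (by linarith)
    refine engS hstart hconv hcoll hrec (T := d) hn hm hg (by linarith) hΛ (hcl _) h1 ?_ ?_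
    · have : (0 : ℝ) ≤ d := Nat.cast_nonneg d
      nlinarith
    · rwa [mul_pow, hρN] at h2
  · push Not at hρ7
    have : Nonempty (Fin n) := ⟨⟨0, hn⟩⟩
    have h1 : SurS (fun _ : Fin r => m) (RegS (0 : ℝ) d (fun _ : Fin n => 0) (fun _ => 1)) := by
      refine SurS_simplex (ρ := ρ) (by simpa using hr) d m hρ (by simpa using hρN) ?_
      rw [Fintype.card_fin]
      have h2 : ρ * m ≤ ρ * g := mul_le_mul_of_nonneg_left hg hρ.le
      have h3 : ρ * n ≤ 7 * n := mul_le_mul_of_nonneg_right hρ7.le (by linarith)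
      have h4 : 8 * (n : ℝ) * 1 ≤ 8 * n * Λ := mul_le_mul_of_nonneg_left hΛ (by positivity)
      nlinarith
    have h2 := hconv (Fin r) n d _ h1
    rwa [Multiset.map_const', Finset.card_val, Finset.card_univ, Fintype.card_fin] at h2

end Pool.Agent.H929.BW
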