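import Pool.Agent.H929.BW.Mon

/-! # BW: the main theorem from the parts -/

set_option autoImplicit false

namespace Pool.Agent.H929.BW

open Finset MvPolynomial
open scoped LinearAlgebra.Projectivization
open Pool.Agent.H350R3.MG Pool.Agent.Y55.Col

theorem gv_of_emp {n r m d : ℕ} (h : Emp (n + 1) (d + 1) (Multiset.replicate r m)) :
    GV (n + 1) r m d ((n + 1 + d).choose (n + 1)) := by
  obtain ⟨U, h1, h2, h3⟩ := emp_gen h
  refine ⟨U, h1, h2, fun P hP => ?_⟩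
  have h4 := h3 P hP
  have h5 : (homogeneousSubmodule (Fin (n + 1 + 1)) ℂ d ⊓
      Submodule.restrictScalars ℂ (⨅ i, primeIdeal (P i) ^ m :
        Ideal (MvPolynomial (Fin (n + 1 + 1)) ℂ)) :
          Submodule ℂ (MvPolynomial (Fin (n + 1 + 1)) ℂ)) = ⊥ := h4
  show (Module.finrank ℂ (homogeneousSubmodule (Fin (n + 1 + 1)) ℂ d) : ℤ) -
    Module.finrank ℂ (homogeneousSubmodule (Fin (n + 1 + 1)) ℂ d ⊓
      Submodule.restrictScalars ℂ (⨅ i, primeIdeal (P i) ^ m :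
        Ideal (MvPolynomial (Fin (n + 1 + 1)) ℂ)) :
          Submodule ℂ (MvPolynomial (Fin (n + 1 + 1)) ℂ)) = ((n + 1 + d).choose (n + 1) : ℕ)
  rw [h5, finrank_bot, dim_forms, Nat.add_comm d]
  simp

theorem gv_of_ind {n r m d : ℕ} (h : Ind n (d + 1) (Multiset.replicate r m)) :
    GV (n + 1) r m d (r * (n + 1 + m - 1).choose (n + 1)) := by
  obtain ⟨U, h1, h2, h3⟩ := ind_gen h
  refine ⟨U, h1, h2, fun P hP => ?_⟩
  have h4 := h3 P hP
  have h5 : Module.finrank ℂ (homogeneousSubmodule (Fin (n + 1 + 1)) ℂ d ⊓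
      Submodule.restrictScalars ℂ (⨅ i, primeIdeal (P i) ^ m :
        Ideal (MvPolynomial (Fin (n + 1 + 1)) ℂ)) :
          Submodule ℂ (MvPolynomial (Fin (n + 1 + 1)) ℂ)) + r * (m + n).choose (n + 1) =
        (d + (n + 1)).choose (n + 1) := h4
  show (Module.finrank ℂ (homogeneousSubmodule (Fin (n + 1 + 1)) ℂ d) : ℤ) -
    Module.finrank ℂ (homogeneousSubmodule (Fin (n + 1 + 1)) ℂ d ⊓
      Submodule.restrictScalars ℂ (⨅ i, primeIdeal (P i) ^ m :
        Ideal (MvPolynomial (Fin (n + 1 + 1)) ℂ)) :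
          Submodule ℂ (MvPolynomial (Fin (n + 1 + 1)) ℂ)) =
            (r : ℤ) * ((n + 1 + m - 1).choose (n + 1) : ℕ)
  rw [dim_forms, ← h5, show n + 1 + m - 1 = m + n by omega]
  push_cast
  ring

/-- the critical degree -/
noncomputable def crit (n r m : ℕ) : ℝ :=
  ((n.factorial * (r * (n + m - 1).choose n) : ℕ) : ℝ) ^ (1 / (n : ℝ))

lemma crit_nonneg (n r m : ℕ) : 0 ≤ crit n r m := Real.rpow_nonneg (Nat.cast_nonneg _) _

lemma crit_pow (n r m : ℕ) : crit (n + 1) r m ^ (n + 1) = r * PP n m := by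
  unfold crit
  rw [← Real.rpow_natCast, ← Real.rpow_mul (Nat.cast_nonneg _), one_div,
    inv_mul_cancel₀ (by positivity), Real.rpow_one, ← PP_nat]
  push_cast
  ring

theorem mainAll (hstartE : S_STARTE) (hconvE : S_CONVE) (hcollE : S_COLLE) (hrecE : S_RECE)
    (hnumE : S_NUME) (hclE : S_CLE) (hstartS : S_STARTS) (hconvS : S_CONVS) (hcollS : S_COLLS)
    (hrecS : S_RECS) (hnumS : S_NUMS) (hclS : S_CLS) (n : ℕ) (hn : 1 ≤ n) :
    ∃ C : ℝ, 0 < C ∧ ∀ r m d : ℕ, 3 ^ (n + 1) ≤ r → 1 ≤ m →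
      ((d : ℝ) ≤ crit (n + 1) r m - C → GV (n + 1) r m d ((n + 1 + d).choose (n + 1))) ∧
      (crit (n + 1) r m + C ≤ d →
        GV (n + 1) r m d (r * (n + 1 + m - 1).choose (n + 1))) := by
  obtain ⟨C1, hC1, h1⟩ := midE hstartE hconvE hcollE hrecE hnumE hclE n hn
  obtain ⟨C2, hC2, h2⟩ := midS hstartS hconvS hcollS hrecS hnumS hclS n hn
  obtain ⟨C3, hC3, h3⟩ := farE n hn
  obtain ⟨C4, hC4, h4⟩ := farS n hn
  refine ⟨C1 + C2 + C3 + C4, by positivity, fun r m d hr hm => ?_⟩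
  have hr1 : 1 ≤ r := le_trans (Nat.one_le_pow _ _ (by norm_num)) hr
  have hrR : (0 : ℝ) < r := by exact_mod_cast hr1
  have hρ : (0 : ℝ) < (r : ℝ) ^ (1 / ((n : ℝ) + 1)) := Real.rpow_pos_of_pos hrR _
  have hρN : ((r : ℝ) ^ (1 / ((n : ℝ) + 1))) ^ (n + 1) = r := by
    rw [← Real.rpow_natCast, ← Real.rpow_mul hrR.le, one_div]
    push_cast
    rw [inv_mul_cancel₀ (by positivity), Real.rpow_one]
  set ρ := (r : ℝ) ^ (1 / ((n : ℝ) + 1)) with hρdef
  rcases le_total ρ m with h | h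
  · exact ⟨fun hd => gv_of_emp (h1 r m d ρ _ hr hρ hρN hm h (crit_nonneg _ _ _)
      (crit_pow n r m) (by linarith)),
      fun hd => gv_of_ind (h2 r m d ρ _ hr hρ hρN hm h (crit_nonneg _ _ _)
      (crit_pow n r m) (by linarith))⟩
  · exact ⟨fun hd => h3 r m d ρ _ hr1 hρ hρN hm h (crit_nonneg _ _ _)
      (crit_pow n r m) (by linarith),
      fun hd => h4 r m d ρ _ hr1 hρ hρN hm h (crit_nonneg _ _ _)
      (crit_pow n r m) (by linarith)⟩

end Pool.Agent.H929.BW
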