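import Pool.Agent.H929.BW.Asm
import Pool.Agent.H929.BW.Crit

/-! # BW: the range of many conditions -/

set_option autoImplicit false

namespace Pool.Agent.H929.BW

open Finset Pool.Agent.Y55.Col

/-- emptiness if `ρ ≤ m` -/
theorem midE (hstart : S_STARTE) (hconv : S_CONVE) (hcoll : S_COLLE) (hrec : S_RECE)
    (hnum : S_NUME) (hcl : S_CLE) (n : ℕ) (hn : 1 ≤ n) :
    ∃ C : ℝ, 0 < C ∧ ∀ (r m d : ℕ) (ρ T : ℝ), 3 ^ (n + 1) ≤ r → 0 < ρ → ρ ^ (n + 1) = r →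
      1 ≤ m → ρ ≤ m → 0 ≤ T → T ^ (n + 1) = r * PP n m → (d : ℝ) ≤ T - C →
      Emp (n + 1) (d + 1) (Multiset.replicate r m) := by
  obtain ⟨K, hK, hcl⟩ := hcl n hn
  obtain ⟨C, hC, h⟩ := finE hstart hconv hcoll hrec hnum n hn K hK
  refine ⟨C * (2 * K), by positivity, fun r m d ρ T hr hρ hρN hm hρm hT hTn hd => ?_⟩
  have hm1 : (1 : ℝ) ≤ m := by exact_mod_cast hm
  have hn0 : (0 : ℝ) ≤ n := Nat.cast_nonneg n
  have h1 : 0 ≤ ρ / m := by positivity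
  have h2 : ρ / m ≤ 1 := (div_le_one (by linarith)).2 hρm
  have h3 : T ≤ ρ * ((m : ℝ) + n / 2) := crit_le hρ (by linarith) hρN hTn
  refine h r m d ρ ((m : ℝ) + n / 2) (K * (1 + ρ / m)) hr hρ hρN hm (by linarith) (by linarith)
    (by nlinarith) le_rfl (hcl m hm ρ hρ.le) ?_
  have h4 : C * (K * (1 + ρ / m)) ≤ C * (2 * K) := mul_le_mul_of_nonneg_left (by nlinarith) hC.le
  linarith

/-- independence if `ρ ≤ m` -/
theorem midS (hstart : S_STARTS) (hconv : S_CONVS) (hcoll : S_COLLS) (hrec : S_RECS)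
    (hnum : S_NUMS) (hcl : S_CLS) (n : ℕ) (hn : 1 ≤ n) :
    ∃ C : ℝ, 0 < C ∧ ∀ (r m d : ℕ) (ρ T : ℝ), 3 ^ (n + 1) ≤ r → 0 < ρ → ρ ^ (n + 1) = r →
      1 ≤ m → ρ ≤ m → 0 ≤ T → T ^ (n + 1) = r * PP n m → T + C ≤ d →
      Ind n (d + 1) (Multiset.replicate r m) := by
  have hn0 : (0 : ℝ) ≤ n := Nat.cast_nonneg n
  obtain ⟨C, hC, h⟩ := finS hstart hconv hcoll hrec hnum n hn ((n : ℝ) + 3) (by linarith)
  refine ⟨C * (n + 3) + n ^ 2, by positivity, fun r m d ρ T hr hρ hρN hm hρm hT hTn hd => ?_⟩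
  have hm1 : (1 : ℝ) ≤ m := by exact_mod_cast hm
  have h1 : 0 ≤ ρ / m := by positivity
  have h3 : ρ * ((m : ℝ) + n / 2) - n ^ 2 ≤ T := le_crit2 hT hρ (by linarith) hρm hρN hTn
  refine h r m d ρ ((m : ℝ) + n / 2) ((n : ℝ) + 3) hr hρ hρN hm (by linarith) (by linarith)
    (by linarith) (by nlinarith) (hcl n hn m hm) ?_
  linarith

end Pool.Agent.H929.BW
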