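import Pool.Agent.H929.BW.Stm

/-! # BW: from `Emp` and `Ind` to Hilbert functions of general points -/

set_option autoImplicit false

namespace Pool.Agent.H929.BW

open MvPolynomial
open scoped LinearAlgebra.Projectivization
open Pool.Agent.H350R3.MG

/-- `V_d(Γ)`: the forms of degree `d` vanishing to order at least `m` at every point. -/
noncomputable def forms {r k : ℕ} (d m : ℕ) (P : Fin k → ℙ ℂ (Fin (r + 1) → ℂ)) :
    Submodule ℂ (MvPolynomial (Fin (r + 1)) ℂ) :=
  homogeneousSubmodule (Fin (r + 1)) ℂ d ⊓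
    Submodule.restrictScalars ℂ (⨅ i, primeIdeal (P i) ^ m : Ideal (MvPolynomial (Fin (r + 1)) ℂ))

lemma forms_eq {r k d : ℕ} (m : ℕ) (v : Fin k → Fin (r + 1) → ℂ) (hv : ∀ i, v i ≠ 0) :
    forms d m (fun i => Projectivization.mk ℂ (v i) (hv i)) =
      Pool.Agent.H938R2.forms (r + 1) d (fun _ => m) v := by
  unfold forms
  ext F
  rw [Submodule.mem_inf, Submodule.restrictScalars_mem, Submodule.mem_iInf,
    Pool.Agent.H938R2.mem_forms, mem_homogeneousSubmodule]
  have key : F.IsHomogeneous d → ∀ i,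
      (F ∈ primeIdeal (Projectivization.mk ℂ (v i) (hv i)) ^ m ↔
        Pool.Agent.H938R2.VanishesToOrder m (v i) F) := by
    intro hF i
    rw [primeIdeal_mk]
    exact Pool.Agent.TH176.FB.mem_pow_iff_vanishes (hv i) ((mem_homogeneousSubmodule _ _).2 hF)
  constructor
  · rintro ⟨h1, h2⟩
    exact ⟨h1, fun i => (key h1 i).1 (h2 i)⟩
  · rintro ⟨h1, h2⟩
    exact ⟨h1, fun i => (key h1 i).2 (h2 i)⟩

lemma dim_forms (n d : ℕ) :
    Module.finrank ℂ (homogeneousSubmodule (Fin (n + 1 + 1)) ℂ d) = (d + (n + 1)).choose (n + 1) :=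
  Pool.Agent.TH3.IR.finrank_forms (by omega) d

/-- emptiness, for general points -/
theorem emp_gen {n r m d : ℕ}
    (h : Pool.Agent.Y55.Col.Emp (n + 1) (d + 1) (Multiset.replicate r m)) :
    Generally (fun P : Fin r → ℙ ℂ (Fin (n + 1 + 1) → ℂ) => forms d m P = ⊥) := by
  have h0 : Multiset.replicate r m = (Finset.univ : Finset (Fin r)).val.map (fun _ => m) := by
    rw [Multiset.map_const', Finset.card_val, Finset.card_univ, Fintype.card_fin]
  rw [h0] at h
  obtain ⟨D, hD, h⟩ := Pool.Agent.Y55.Col.general_of_emp h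
  refine generally_of_poly D hD fun v hv hp => ?_
  rw [forms_eq _ v hv]
  exact h v hp

/-- independence, for general points -/
theorem ind_gen {n r m d : ℕ}
    (h : Pool.Agent.Y55.Col.Ind n (d + 1) (Multiset.replicate r m)) :
    Generally (fun P : Fin r → ℙ ℂ (Fin (n + 1 + 1) → ℂ) =>
      Module.finrank ℂ (forms d m P) + r * (m + n).choose (n + 1) =
        (d + (n + 1)).choose (n + 1)) := by
  have h0 : Multiset.replicate r m = (Finset.univ : Finset (Fin r)).val.map (fun _ => m) := by
    rw [Multiset.map_const', Finset.card_val, Finset.card_univ, Fintype.card_fin]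
  rw [h0] at h
  obtain ⟨D, hD, h⟩ := Pool.Agent.Y55.Col.general_of_ind h
  refine generally_of_poly D hD fun v hv hp => ?_
  rw [forms_eq _ v hv]
  have h1 := h v hp
  rwa [Finset.sum_const, Finset.card_univ, Fintype.card_fin, smul_eq_mul] at h1

end Pool.Agent.H929.BW
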