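import Pool.Agent.H929.BW.Mid
import Pool.Agent.H929.BW.Val
import Pool.Graph.R_pool_sql_team_seeded_c8625f6e.Results.MP_b56c98_ag.ConstantWindow

/-! # BW: the range of many points -/

set_option autoImplicit false

namespace Pool.Agent.H929.BW

open Finset MvPolynomial
open scoped LinearAlgebra.Projectivization
open Pool.Agent.H350R3.MG

/-- the general value of the Hilbert function -/
def GV (n r m d : ℕ) (h : ℤ) : Prop :=
  Pool.Agent.Results.MP_b56c98_ag.ConstantWindow.IsGeneralHilbertValue n r (fun _ => m) d h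

lemma GV_iff (n r m d : ℕ) (h : ℤ) : GV n r m d h ↔
    Generally (fun P : Fin r → ℙ ℂ (Fin (n + 1) → ℂ) =>
      (Module.finrank ℂ (homogeneousSubmodule (Fin (n + 1)) ℂ d) : ℤ) -
        Module.finrank ℂ (homogeneousSubmodule (Fin (n + 1)) ℂ d ⊓
          Submodule.restrictScalars ℂ (⨅ i, primeIdeal (P i) ^ m :
            Ideal (MvPolynomial (Fin (n + 1)) ℂ)) :
          Submodule ℂ (MvPolynomial (Fin (n + 1)) ℂ)) = h) := Iff.rfl

/-- few conditions per point, emptiness -/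
theorem farE (n : ℕ) (hn : 1 ≤ n) :
    ∃ C : ℝ, 0 < C ∧ ∀ (r m d : ℕ) (ρ T : ℝ), 1 ≤ r → 0 < ρ → ρ ^ (n + 1) = r →
      1 ≤ m → m ≤ ρ → 0 ≤ T → T ^ (n + 1) = r * PP n m → (d : ℝ) ≤ T - C →
      GV (n + 1) r m d ((n + 1 + d).choose (n + 1)) := by
  obtain ⟨-, h2, -⟩ := Pool.Agent.Results.MP_b56c98_ag.ConstantWindow.result (n + 1) (by omega)
  set c := Pool.Agent.Results.MP_b56c98_ag.ConstantWindow.const (n + 1) with hc
  refine ⟨(n + 1) + c * (1 + n) ^ (n + 1), by positivity,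
    fun r m d ρ T hr hρ hρN hm hρm hT hTn hd => ?_⟩
  have hm1 : (1 : ℝ) ≤ m := by exact_mod_cast hm
  have hkey := numE (n := n) (c := c) hT hn (by linarith) hm1 hρm hρN hTn (Nat.cast_nonneg d)
    (Nat.cast_nonneg c) le_rfl hd
  refine (h2 m d hm).2.2 r (Or.inr ?_)
  show (c : ℤ) * (((n + 1 + m - 1).choose (n + 1) : ℕ) - m) ≤
    r * ((n + 1 + m - 1).choose (n + 1) : ℕ) - ((n + 1 + d).choose (n + 1) : ℕ)
  rw [← PP_nat, ← PP_nat'] at hkey
  have hf : (0 : ℝ) < (n + 1).factorial := by exact_mod_cast Nat.factorial_pos _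
  have h3 : (c : ℝ) * ((n + 1 + m - 1).choose (n + 1) : ℕ) ≤
      r * ((n + 1 + m - 1).choose (n + 1) : ℕ) - ((n + 1 + d).choose (n + 1) : ℕ) := by
    push_cast at hkey
    by_contra hcon
    push Not at hcon
    have := mul_lt_mul_of_pos_left hcon hf
    linarith
  have h4 : (c : ℤ) * ((n + 1 + m - 1).choose (n + 1) : ℕ) ≤
      r * ((n + 1 + m - 1).choose (n + 1) : ℕ) - ((n + 1 + d).choose (n + 1) : ℕ) := by
    have h5 : (((c : ℤ) * ((n + 1 + m - 1).choose (n + 1) : ℕ) : ℤ) : ℝ) ≤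
      ((r * ((n + 1 + m - 1).choose (n + 1) : ℕ) - ((n + 1 + d).choose (n + 1) : ℕ) : ℤ) : ℝ) := by
      push_cast
      exact h3
    exact_mod_cast h5
  have h6 : (0 : ℤ) ≤ c * m := by positivity
  linarith

/-- few conditions per point, independence -/
theorem farS (n : ℕ) (hn : 1 ≤ n) :
    ∃ C : ℝ, 0 < C ∧ ∀ (r m d : ℕ) (ρ T : ℝ), 1 ≤ r → 0 < ρ → ρ ^ (n + 1) = r →
      1 ≤ m → m ≤ ρ → 0 ≤ T → T ^ (n + 1) = r * PP n m → T + C ≤ d →
      GV (n + 1) r m d (r * (n + 1 + m - 1).choose (n + 1)) := by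
  obtain ⟨-, h2, -⟩ := Pool.Agent.Results.MP_b56c98_ag.ConstantWindow.result (n + 1) (by omega)
  refine ⟨(n + 1).factorial + n * (1 + n) ^ (n + 1) + 1, by positivity,
    fun r m d ρ T hr hρ hρN hm hρm hT hTn hd => ?_⟩
  have hm1 : (1 : ℝ) ≤ m := by exact_mod_cast hm
  have hkey := numS (n := n) (d := d) (c := n) (c' := (n + 1).factorial) hT hn (by linarith) hm1
    hρm hρN hTn (Nat.cast_nonneg n) (Nat.cast_nonneg _) (by linarith) hd
  refine (h2 m d hm).2.1 r (Or.inr ?_)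
  show ((m - 1 : ℕ) : ℤ) ^ (n + 1) + (((n + 1 : ℕ) : ℤ) - 2) *
      ((n + 1 + m - 1).choose (n + 1) : ℕ) <
    ((n + 1 + d).choose (n + 1) : ℕ) - r * ((n + 1 + m - 1).choose (n + 1) : ℕ)
  rw [← PP_nat, ← PP_nat'] at hkey
  have hf : (0 : ℝ) < (n + 1).factorial := by exact_mod_cast Nat.factorial_pos _
  have h3 : (m : ℝ) ^ (n + 1) + n * ((n + 1 + m - 1).choose (n + 1) : ℕ) <
      ((n + 1 + d).choose (n + 1) : ℕ) - r * ((n + 1 + m - 1).choose (n + 1) : ℕ) := by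
    push_cast at hkey
    by_contra hcon
    push Not at hcon
    have := mul_le_mul_of_nonneg_left hcon hf.le
    linarith
  have h4 : (m : ℤ) ^ (n + 1) + n * ((n + 1 + m - 1).choose (n + 1) : ℕ) <
      ((n + 1 + d).choose (n + 1) : ℕ) - r * ((n + 1 + m - 1).choose (n + 1) : ℕ) := by
    have h5 : (((m : ℤ) ^ (n + 1) + n * ((n + 1 + m - 1).choose (n + 1) : ℕ) : ℤ) : ℝ) <
      ((((n + 1 + d).choose (n + 1) : ℕ) - r * ((n + 1 + m - 1).choose (n + 1) : ℕ) : ℤ) : ℝ) := by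
      push_cast
      exact h3
    exact_mod_cast h5
  have h6 : ((m - 1 : ℕ) : ℤ) ^ (n + 1) ≤ (m : ℤ) ^ (n + 1) :=
    pow_le_pow_left₀ (by positivity) (by omega) _
  have h7 : (((n + 1 : ℕ) : ℤ) - 2) * ((n + 1 + m - 1).choose (n + 1) : ℕ) ≤
      n * ((n + 1 + m - 1).choose (n + 1) : ℕ) :=
    mul_le_mul_of_nonneg_right (by push_cast; linarith) (Nat.cast_nonneg _)
  linarith

end Pool.Agent.H929.BW
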