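import Pool.Graph.R_seed8.TH3.IR.Window
import Pool.Graph.R_pool_sql_team_seeded_35f281b4.K7.H43.PT.Fin
import Pool.Graph.R_seed8.H350R3.MG.PLem

/-!
# BW: bounded windows for fat points in projective spaces, statements

`N = n + 1` is the dimension.  `GE n w β H`: emptiness for the multiplicities `w` on the simplices
with all slopes `β` and all heights `H` (width `β H`), `GS`: independence.
-/

set_option autoImplicit false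

namespace Pool.Agent.H929.BW

open Finset Pool.Agent.TH3.IR Pool.Agent.Y55.Col

/-- emptiness on the simplices with all the slopes `β` and width `β H` -/
def GE {ι : Type} (n : ℕ) (w : ι → ℕ) (β H : ℝ) : Prop :=
  Asm.Good (σ := Fin n) w (β * H) (fun _ => β)

/-- independence on the simplices with all the slopes `β` and width at least `β H` -/
def GS {ι : Type} [Fintype ι] (n : ℕ) (w : ι → ℕ) (β H : ℝ) : Prop :=
  SAsm.Good (σ := Fin n) w (β * H) (fun _ => β)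

/-- cutting by a real hyperplane, emptiness -/
def S_CUTE : Prop := ∀ (ι κ σ : Type) [Finite ι] [Finite κ] [Fintype σ] (w : ι → ℕ) (v : κ → ℕ)
  (S T : Set (ℤ × (σ → ℤ))), S.Finite → T.Finite → ∀ c : σ → ℝ,
  (∀ m ∈ S, ∀ m' ∈ T, (m.1 : ℝ) + ∑ i, c i * (m.2 i : ℝ) < (m'.1 : ℝ) + ∑ i, c i * (m'.2 i : ℝ)) →
  EmpS w S → EmpS v T → EmpS (Sum.elim w v) (S ∪ T)

/-- cutting by a real hyperplane, independence -/
def S_CUTS : Prop := ∀ (ι κ σ : Type) [Fintype ι] [Fintype κ] [Fintype σ] (w : ι → ℕ) (v : κ → ℕ)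
  (S T : Set (ℤ × (σ → ℤ))) (c : σ → ℝ),
  (∀ m ∈ S, ∀ m' ∈ T, (m.1 : ℝ) + ∑ i, c i * (m.2 i : ℝ) < (m'.1 : ℝ) + ∑ i, c i * (m'.2 i : ℝ)) →
  SurS w S → SurS v T → SurS (Sum.elim w v) (S ∪ T)

/-- nodal step in all directions, emptiness -/
def S_NODE : Prop := ∀ (ι : Type) (n : ℕ) (w : ι → ℕ) (β H ρ : ℝ), 2 ≤ ρ → 5 / 2 ≤ β →
  GE n w (ρ ^ (n + 1) * β) (H / ρ) → GE n w β H

/-- from the simplex, emptiness -/
def S_STARTE : Prop := ∀ (ι : Type) (n : ℕ) (w : ι → ℕ) (d : ℕ), 1 ≤ n →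
  GE n w (3 ^ (n + 1)) ((d : ℝ) / 3) →
  EmpS w (RegS (0 : ℝ) d (fun _ : Fin n => 0) (fun _ => 1))

/-- two pieces, emptiness -/
def S_PIECEE : Prop := ∀ (ι κ : Type) [Finite ι] [Finite κ] (n : ℕ) (w : ι → ℕ) (v : κ → ℕ)
  (a b H : ℝ), 1 ≤ a → 1 ≤ b → GE n w a H → GE n v b H → GE n (Sum.elim w v) (a + b) H

/-- nodal step in all directions, independence -/
def S_NODS : Prop := ∀ (ι : Type) [Fintype ι] (n : ℕ) (w : ι → ℕ) (β H ρ : ℝ), 2 ≤ ρ →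
  5 / 2 ≤ β → GS n w (ρ ^ (n + 1) * β) (H / ρ - 2 * (n + 1)) → GS n w β H

/-- from the simplex, independence -/
def S_STARTS : Prop := ∀ (ι : Type) [Fintype ι] (n : ℕ) (w : ι → ℕ) (d : ℕ), 1 ≤ n →
  GS n w (3 ^ (n + 1)) ((d : ℝ) / 3 - 2 * (n + 1)) →
  SurS w (RegS (0 : ℝ) d (fun _ : Fin n => 0) (fun _ => 1))

/-- two pieces, independence -/
def S_PIECES : Prop := ∀ (ι κ : Type) [Fintype ι] [Fintype κ] (n : ℕ) (w : ι → ℕ) (v : κ → ℕ)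
  (a b H H' : ℝ), 1 ≤ a → 1 ≤ b → H' < H → GS n w a H → GS n v b H' →
  GS n (Sum.elim w v) (a + b) H

/-- a larger simplex, independence -/
def S_MONOS : Prop := ∀ (ι : Type) [Fintype ι] (n : ℕ) (w : ι → ℕ) (a a' H : ℝ), 1 ≤ a → a ≤ a' →
  0 ≤ H → GS n w a H → GS n w a' H

/-- from regions to general points, emptiness -/
def S_CONVE : Prop := ∀ (ι : Type) [Fintype ι] (n d : ℕ) (w : ι → ℕ),
  EmpS w (RegS (0 : ℝ) d (fun _ : Fin n => 0) (fun _ => 1)) →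
  Emp (n + 1) (d + 1) ((univ : Finset ι).val.map w)

/-- from regions to general points, independence -/
def S_CONVS : Prop := ∀ (ι : Type) [Fintype ι] (n d : ℕ) (w : ι → ℕ),
  SurS w (RegS (0 : ℝ) d (fun _ : Fin n => 0) (fun _ => 1)) →
  Ind n (d + 1) ((univ : Finset ι).val.map w)

/-- collisions into clusters, emptiness -/
def S_COLLE : Prop := ∀ (ι : Type) [Fintype ι] (E D m : ℕ) (w s : ι → ℕ),
  Emp E D ((univ : Finset ι).val.map w) → (∀ i, Emp E (w i) (Multiset.replicate (s i) m)) →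
  Emp E D (Multiset.replicate (∑ i, s i) m)

/-- collisions into clusters, independence -/
def S_COLLS : Prop := ∀ (ι : Type) [Fintype ι] (n D m : ℕ) (w s : ι → ℕ),
  Ind n D ((univ : Finset ι).val.map w) → (∀ i, Ind n (w i) (Multiset.replicate (s i) m)) →
  Ind n D (Multiset.replicate (∑ i, s i) m)

/-- the clusters of `t ^ (n + 1)` points of multiplicity `m`, `t ≤ T`, are at least points of
multiplicity `t g - Λ` (for emptiness) -/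
def ClE (n m : ℕ) (g Λ T : ℝ) : Prop := ∀ t : ℕ, 1 ≤ t → (t : ℝ) ≤ T →
  ∃ M : ℕ, Emp (n + 1) M (Multiset.replicate (t ^ (n + 1)) m) ∧ t * g - Λ ≤ M

/-- the clusters of `t ^ (n + 1)` points of multiplicity `m`, `t ≤ T`, are at most points of
multiplicity `t g + Λ` (for independence) -/
def ClS (n m : ℕ) (g Λ T : ℝ) : Prop := ∀ t : ℕ, 1 ≤ t → (t : ℝ) ≤ T →
  ∃ M : ℕ, Ind n M (Multiset.replicate (t ^ (n + 1)) m) ∧ (M : ℝ) ≤ t * g + Λ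

/-- clusters in every dimension, emptiness -/
def S_CLE : Prop := ∀ n : ℕ, 1 ≤ n → ∃ C : ℝ, 1 ≤ C ∧ ∀ m : ℕ, 1 ≤ m → ∀ T : ℝ, 0 ≤ T →
  ClE n m ((m : ℝ) + n / 2) (C * (1 + T / m)) T

/-- clusters in every dimension, independence -/
def S_CLS : Prop := ∀ n : ℕ, 1 ≤ n → ∀ m : ℕ, 1 ≤ m → ∀ T : ℝ,
  ClS n m ((m : ℝ) + n / 2) (n + 3) T

/-- the cube root of `m (m + 1) (m + 2)` -/
noncomputable def g3 (m : ℕ) : ℝ := ((m : ℝ) * (m + 1) * (m + 2)) ^ ((1 : ℝ) / 3)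

/-- clusters in space, emptiness -/
def S_CLE3 : Prop := ∀ m : ℕ, 1 ≤ m → ∀ T : ℝ, ClE 2 m (g3 m) 11 T

/-- clusters in space, independence -/
def S_CLS3 : Prop := ∀ m : ℕ, 1 ≤ m → ∀ T : ℝ, ClS 2 m (g3 m) 11 T

/-- constants for emptiness -/
noncomputable def AE (n : ℕ) : ℝ := 2 * 3 ^ (n + 2) * 3 ^ (n + 1) * (n + 1)

noncomputable def FE (n m : ℕ) (g Λ : ℝ) : ℝ :=
  3 ^ (n + 2) * (12 * (g + Λ)) ^ (n + 1) * ((g / m) ^ (n + 1) - 1)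

/-- the recursion, emptiness -/
def S_RECE : Prop := ∀ (n m : ℕ) (g Λ T : ℝ), 1 ≤ n → 1 ≤ m → (m : ℝ) ≤ g → 1 ≤ Λ →
  ClE n m g Λ T → ∀ (β H : ℝ) (r : ℕ), 21 / 4 ≤ β → β ≤ 3 ^ (n + 2) → 2 * g ≤ H → H ≤ 2 * g * T →
  β * H ^ (n + 1) + AE n * Λ * H ^ n + FE n m g Λ ≤ r * g ^ (n + 1) →
  ∃ (ι : Type) (_ : Fintype ι) (w s : ι → ℕ), GE n w β H ∧
    (∀ i, Emp (n + 1) (w i) (Multiset.replicate (s i) m)) ∧ ∑ i, s i = r

/-- constants for independence -/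
noncomputable def AS (n : ℕ) (Λ : ℝ) : ℝ :=
  4 ^ (n + 2) * 3 ^ (n + 2) * (n + 1) * (Λ + 2 * (n + 1))

noncomputable def FS (n m : ℕ) (g Λ : ℝ) : ℝ :=
  3 ^ (n + 2) * (12 * (g + Λ + 2 * (n + 1))) ^ (n + 1) *
    (1 - (g / (m + 2 * (n + 1))) ^ (n + 1))

/-- the recursion, independence -/
def S_RECS : Prop := ∀ (n m : ℕ) (g Λ T : ℝ), 1 ≤ n → 1 ≤ m → (m : ℝ) ≤ g →
  g ≤ m + 2 * (n + 1) → 1 ≤ Λ → ClS n m g Λ T → ∀ (β H : ℝ) (r : ℕ), 21 / 4 ≤ β →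
  β ≤ 3 ^ (n + 2) → 2 * (m + 2 * (n + 1)) ≤ H → H ≤ 3 * g * T →
  r * g ^ (n + 1) + AS n Λ * H ^ n + FS n m g Λ ≤ β * H ^ (n + 1) →
  ∃ (ι : Type) (_ : Fintype ι) (w s : ι → ℕ), GS n w β H ∧
    (∀ i, Ind n (w i) (Multiset.replicate (s i) m)) ∧ r ≤ ∑ i, s i

/-- the numerical condition for emptiness -/
def S_NUME : Prop := ∀ n : ℕ, 1 ≤ n → ∀ K : ℝ, 1 ≤ K → ∃ C : ℝ, 0 < C ∧
  ∀ (m : ℕ) (ρ g Λ d : ℝ), 1 ≤ m → 3 ≤ ρ → (m : ℝ) ≤ g → g ≤ m + n → 1 ≤ Λ →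
    Λ ≤ K * (1 + ρ / m) → 6 * g ≤ d → d ≤ ρ * g - C * Λ →
    d ^ (n + 1) + AE n * Λ * (d / 3) ^ n + FE n m g Λ ≤ (ρ * g) ^ (n + 1)

/-- the numerical condition for independence -/
def S_NUMS : Prop := ∀ n : ℕ, 1 ≤ n → ∀ K : ℝ, 1 ≤ K → ∃ C : ℝ, 0 < C ∧
  ∀ (m : ℕ) (ρ g Λ d : ℝ), 1 ≤ m → 7 ≤ ρ → (m : ℝ) ≤ g → g ≤ m + n → 1 ≤ Λ →
    Λ ≤ K * (1 + ρ / m) → ρ * g + C * Λ ≤ d →
    2 * (m + 2 * (n + 1)) ≤ d / 3 - 2 * (n + 1) ∧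
    (ρ * g) ^ (n + 1) + AS n Λ * (d / 3 - 2 * (n + 1)) ^ n + FS n m g Λ ≤
      3 ^ (n + 1) * (d / 3 - 2 * (n + 1)) ^ (n + 1)

end Pool.Agent.H929.BW
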